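import Pool.Agent.helper16.EXG.Spec

/-! Row en5:GXC (MP_561ff4_al): calculus of the root elements. -/

set_option autoImplicit false

open Finset

namespace Pool.Agent.EXC

theorem GXC : GXC_stmt := by
  intro n C _ F _ hβ α β hα hb s t
  have hX : ∀ γ, ip C γ γ = 2 → Xtr C (E C γ : Lm C F) := fun γ hγ =>
    ((f_EXF n C F hβ).2.2.1 _ ((f_EXF n C F hβ).2.1 γ hγ)).1
  have hk := k_XGS n C F hβ
  have h1 : ∀ s t : F, XG C α (s + t) = XG C α s * XG C α t := by
    intro s t
    refine LinearEquiv.ext fun v => ?_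
    have h2 : (XG C α s * XG C α t) v = XG C α s (XG C α t v) := rfl
    rw [h2, (hk α hα (s + t)).1, (hk α hα s).1, (hk α hα t).1, (f_XAU n C F (E C α) (hX α hα)).1]
  refine ⟨h1 s t, ?_, ?_, ?_⟩
  · have h2 := h1 0 0
    rw [add_zero] at h2
    exact (left_eq_mul).1 h2
  · intro h0
    refine LinearEquiv.ext fun v => ?_
    have h2 : (XG C α s * XG C β t) v = XG C α s (XG C β t v) := rfl
    have h3 : (XG C β t * XG C α s) v = XG C β t (XG C α s v) := rfl
    rw [h2, h3, (hk α hα s).1, (hk β hb t).1, (hk α hα s).1, (hk β hb t).1]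
    exact (f_COL n C F α β hα hb).2 h0 s t v
  · intro hm
    have hab : ip C (α + β) (α + β) = 2 := by
      rw [ip_add_left, ip_add_right, ip_add_right, hα, hb, hm, ip_comm C β α, hm]
      norm_num
    have hb2 : ip C β (α + β) = 1 := by
      rw [ip_add_right, ip_comm C β α, hm, hb]
      norm_num
    have hg := (f_EXF n C F hβ).1 _ (hk α hα s).2.1
    refine LinearEquiv.ext fun v => ?_
    have h2 : (XG C α s * XG C β t * (XG C α s)⁻¹) v = XG C α s (XG C β t ((XG C α s)⁻¹ v)) := rfl
    have h3 : (XG C β t * XG C (α + β) (s * t * (sg C α β : F))) v =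
      XG C β t (XG C (α + β) (s * t * (sg C α β : F)) v) := rfl
    have h4 : XG C α s ((XG C α s)⁻¹ v) = v := LinearEquiv.apply_symm_apply _ _
    have h5 : XG C α s (E C β) = (E C β + (s * (sg C α β : F)) • E C (α + β) : Lm C F) := by
      rw [(hk α hα s).1]
      exact (f_ACT n C F α s hα).2.1 β hb hm
    rw [h2, h3, (hk β hb t).1, ((f_XAU n C F (E C β) (hX β hb)).2.2.1 _ hg).2, h4, h5, (hk (α + β) hab _).1,
      (hk β hb t).1]
    have h6 := ((f_COL n C F β (α + β) hb hab).1 hb2).1 1 (s * (sg C α β : F)) t v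
    rw [one_smul, one_mul] at h6
    rw [h6, mul_right_comm]

end Pool.Agent.EXC
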